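import Pool.Agent.Lib.MP_eee7a8_ag.TB.A.H25.Mono1

/-!
# TAGBR, module MONO: removing monogon loops by flips
-/

open Matrix

namespace Pool.Agent.Lib.MP_eee7a8_ag.TB

namespace AMono

/-- Index `i` is a monogon loop which is not in `Q`. -/
def Bad (G : Subgroup SLZ) {ι κ : Type} (T : Fam ι) (Q : Fam κ) (i : ι) : Prop :=
  ∃ g ∈ G, ∃ c : Cusp, g • c = c ∧ g • T.s i = T.t i ∧ ¬ Q.E G (T.s i) (T.t i)

/-- Neighbours of `c` when the star of `c` consists of two orbits of edges. -/
theorem two_orbits {G : Subgroup SLZ} {ι : Type} {T : Fam ι} (hT : T.NonCross G) {g : SLZ}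
    (hg : g ∈ G) {a c x : Cusp} (hc : g • c = c) (hac : a ≠ c) (hga : a ≠ g • a)
    (hx : Cross c x a (g • a)) (e1 : T.E G a x) (e2 : T.E G x (g • a)) :
    ∀ b, T.E G c b → ∃ k : ℤ, b = g ^ k • a ∨ b = g ^ k • x := by
  obtain ⟨t, tinj, -, tfix, tcross, -⟩ := coord c
  obtain ⟨n, -, hn⟩ := tfix g hc
  have hn0 : (n : ℚ) ≠ 0 := by
    intro e
    apply hga
    apply tinj _ _ hac (hn a hac).1
    rw [(hn a hac).2, e, add_zero]
  intro b hb
  have hbc : b ≠ c := (hT.ne' hb).symm
  have hxc : x ≠ c := hx.ne.1.symm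
  have hxt := (tcross x _ _ hxc hac (hn a hac).1).1 hx
  rw [(hn a hac).2] at hxt
  set k : ℤ := ⌊(t b - t a) / n⌋ with hk
  have h1 : (k : ℚ) ≤ (t b - t a) / n := Int.floor_le _
  have h2 : (t b - t a) / n < k + 1 := Int.lt_floor_add_one _
  have ha := zpow_coord hn k hac
  have ha' := zpow_coord hn (k + 1) hac
  have hX := zpow_coord hn k hxc
  rcases eq_or_lt_of_le h1 with h3 | h3
  · refine ⟨k, Or.inl ?_⟩
    apply tinj _ _ hbc ha.1
    rw [ha.2, h3]
    field_simp
    ring
  · refine ⟨k, Or.inr ?_⟩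
    by_contra hbx
    have hne : t b ≠ t (g ^ k • x) := fun e => hbx (tinj _ _ hbc hX.1 e)
    have E1 : T.E G (g ^ k • a) (g ^ k • x) := e1.smul (G.zpow_mem hg k)
    have E2 : T.E G (g ^ k • x) (g ^ (k + 1) • a) := by
      have := e2.smul (G.zpow_mem hg k)
      rwa [← mul_smul, ← _root_.zpow_add_one] at this
    have N1 := hT.nocross _ _ _ _ hb E1
    have N2 := hT.nocross _ _ _ _ hb E2
    rw [tcross b _ _ hbc ha.1 hX.1] at N1
    rw [tcross b _ _ hbc hX.1 ha'.1] at N2
    rw [ha.2, hX.2] at N1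
    rw [hX.2, ha'.2] at N2
    rw [hX.2] at hne
    push_cast at N2
    rcases lt_or_gt_of_ne hn0 with hneg | hpos
    · rw [lt_div_iff_of_neg hneg] at h3
      rw [div_lt_iff_of_neg hneg] at h2
      rcases lt_or_gt_of_ne hne with h4 | h4
      · apply N2; right; constructor <;> linarith
      · apply N1; right; constructor <;> linarith
    · rw [lt_div_iff₀ hpos] at h3
      rw [div_lt_iff₀ hpos] at h2
      rcases lt_or_gt_of_ne hne with h4 | h4
      · apply N1; left; constructor <;> linarith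
      · apply N2; left; constructor <;> linarith

theorem flip_E_ne {G : Subgroup SLZ} {ι : Type} {T : Fam ι} {i j : ι} (a f : Cusp)
    (hij : j ≠ i) {p q : Cusp} (h : SameArc G (T.s j) (T.t j) p q) : (T.flip i a f).E G p q := by
  refine ⟨j, ?_⟩
  simpa [Fam.flip, hij] using h

theorem flip_E_self {G : Subgroup SLZ} {ι : Type} {T : Fam ι} (i : ι) (a f : Cusp) :
    (T.flip i a f).E G a f := by
  refine ⟨i, ?_⟩
  simpa [Fam.flip] using SameArc.refl a f

end AMono

open AMono in
theorem mono (hM1 : Mono1Statement) (hF : FlipStatement) (hR : RadiusStatement)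
    (hS : SidesStatement) (hN : NoSwapStatement) : MonoStatement := by
  intro G hG ι κ _ _ T Q hT hQ
  -- induction on the number of bad indices
  obtain ⟨m, hm⟩ : ∃ m, m = Set.ncard {i | Bad G T Q i} := ⟨_, rfl⟩
  induction m using Nat.strong_induction_on generalizing T with
  | _ m ih =>
  by_cases hbad : ∃ i, Bad G T Q i
  swap
  · refine ⟨T, hT, Relation.ReflTransGen.refl, hQ, ?_⟩
    intro g hg a c hc hE
    by_contra hnQ
    apply hbad
    obtain ⟨i, k, hk, ⟨h1, h2⟩ | ⟨h1, h2⟩⟩ := hE
    · refine ⟨i, k⁻¹ * g * k, G.mul_mem (G.mul_mem (G.inv_mem hk) hg) hk, k⁻¹ • c, ?_, ?_, ?_⟩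
      · rw [← mul_smul, mul_assoc, mul_inv_cancel, mul_one, mul_smul, hc]
      · rw [mul_smul, mul_smul, h1, inv_smul_eq_iff, h2]
      · intro hq
        apply hnQ
        have := hq.smul hk
        rwa [h1, h2] at this
    · refine ⟨i, k⁻¹ * g⁻¹ * k, G.mul_mem (G.mul_mem (G.inv_mem hk) (G.inv_mem hg)) hk,
        k⁻¹ • c, ?_, ?_, ?_⟩
      · rw [← mul_smul, mul_assoc, mul_inv_cancel, mul_one, mul_smul]
        congr 1
        rw [inv_smul_eq_iff, hc]
      · rw [mul_smul, mul_smul, h1, inv_smul_smul, inv_smul_eq_iff, h2]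
      · intro hq
        apply hnQ
        have := hq.smul hk
        rw [h1, h2] at this
        exact this.symm
  · obtain ⟨i, g, hg, c, hc, hst, hnQ⟩ := hbad
    obtain ⟨a, ha⟩ : ∃ a, a = T.s i := ⟨_, rfl⟩
    rw [← ha] at hst hnQ
    have ht : T.t i = g • a := hst.symm
    rw [ht] at hnQ
    have hl : T.E G a (g • a) := by
      have := T.E_self (G := G) i
      rwa [← ha, ht] at this
    have hga : a ≠ g • a := hT.toNonCross.ne' hl
    have hac : a ≠ c := by
      rintro rfl
      exact hga hc.symm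
    obtain ⟨hca, hstar⟩ := hM1 G hG ι T hT g hg a c hc hl
    have hcga : T.E G c (g • a) := by
      have := hca.smul hg
      rwa [hc] at this
    -- the triangle on the other side
    obtain ⟨x, hxa, hxga, hcx⟩ : ∃ x, T.E G x a ∧ T.E G x (g • a) ∧ Cross c x a (g • a) := by
      obtain ⟨p, q, h1, h2, h3, h4, h5⟩ := hT.tri a (g • a) hl
      have hgac : g • a ≠ c := (hT.toNonCross.ne' hcga).symm
      by_cases hcp : c = p
      · exact ⟨q, h3, h4, by rw [hcp]; exact h5⟩
      · refine ⟨p, h1, h2, ?_⟩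
        by_contra h6
        exact hcp (hT.toNonCross.third hl hca hcga h1 h2 h6)
    have hsimple : Simple G c x := by
      by_contra hns
      have := hR G hG ι T hT c x a (g • a) hl hca hcga hxa hxga hcx hns
      obtain ⟨h, hh, h'⟩ := this
      obtain ⟨e, he, hea⟩ : ∃ e ∈ G, e • a = c := by
        rcases h' with ⟨-, h2, -⟩ | ⟨-, h2, -⟩
        · exact ⟨h * g, G.mul_mem hh hg, by rw [mul_smul, h2]⟩
        · exact ⟨h, hh, h2⟩
      have h1 : T.E G c (e • c) := by
        have := hca.symm.smul he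
        rwa [hea] at this
      obtain ⟨k, hk⟩ := hstar _ h1
      have h2 : (g ^ (-k) * e) • c = a := by
        rw [mul_smul, hk, ← mul_smul, ← _root_.zpow_add, neg_add_cancel, zpow_zero, one_smul]
      have h3 : (g ^ (-k) * e) • a = c := by
        rw [mul_smul, hea, zpow_smul_fix hc]
      exact hac (hN G hG _ (G.mul_mem (G.zpow_mem hg _) he) a c h3 h2)
    have hstep : FlipStep G (Q.E G) T (T.flip i c x) := by
      refine ⟨i, c, x, ?_, ?_, ?_, ?_, ?_, ?_, hsimple, rfl⟩
      · rw [← ha, ht]; exact hnQ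
      · rw [← ha]; exact hca
      · rw [ht]; exact hcga
      · rw [← ha]; exact hxa
      · rw [ht]; exact hxga
      · rw [← ha, ht]; exact hcx
    have hT' : (T.flip i c x).IsTri G := hF G hG ι T _ (Q.E G) hT hstep
    set T' := T.flip i c x with hTdef
    have hsides := hS G hG ι T hT
    have hcross' : Cross c x (g • a) a := cross_comm_right.1 hcx
    have hcross'' : Cross x c a (g • a) := cross_comm_left.1 hcx
    have hcross3 : Cross x c (g • a) a := cross_comm_left.1 hcross'
    have hsimple' : Simple G x c := hsimple.of_same (SameArc.rev c x)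
    -- the sides are edges of `T'`
    have hkeep : ∀ p q, T.E G p q → ¬ SameArc G a (g • a) p q → T'.E G p q := by
      intro p q hpq hn
      obtain ⟨j, hj⟩ := hpq
      refine flip_E_ne c x (j := j) ?_ hj
      rintro rfl
      apply hn
      rwa [← ha, ht] at hj
    have e1 : T'.E G c a := hkeep _ _ hca
      (hsides c x a (g • a) hl hca hcga hxa hxga hcx hsimple).1
    have e2 : T'.E G x a := hkeep _ _ hxa
      (hsides x c a (g • a) hl hxa hxga hca hcga hcross'' hsimple').1
    have e4 : T'.E G x (g • a) := by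
      refine hkeep _ _ hxga fun h => ?_
      exact (hsides x c (g • a) a hl.symm hxga hxa hcga hca hcross3 hsimple').1
        ((SameArc.rev _ _).trans h)
    have e5 : T'.E G c x := flip_E_self i c x
    have hnb := two_orbits hT'.toNonCross hg hc hac hga hcx e2.symm e4
    have hQ' : ∀ p q, Q.E G p q → T'.E G p q := by
      intro p q hpq
      refine hkeep p q (hQ p q hpq) fun h => hnQ (hpq.same h.symm)
    have hnbad : ¬ Bad G T' Q i := by
      rintro ⟨h, hh, z, hz, hcx', -⟩
      have hs : T'.s i = c := by simp [hTdef, Fam.flip]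
      have ht' : T'.t i = x := by simp [hTdef, Fam.flip]
      rw [hs, ht'] at hcx'
      obtain ⟨hzc, hzstar⟩ := hM1 G hG ι T' hT' h hh c z hz (by rw [hcx']; exact e5)
      have hzne : z ≠ c := hT'.toNonCross.ne' hzc
      have hxne : c ≠ x := hT'.toNonCross.ne' e5
      -- `a` is in the orbit of `c`
      have hac' : ∃ e ∈ G, e • c = a := by
        have h1 : T'.E G c (h⁻¹ • c) := by
          have := e5.smul (G.inv_mem hh)
          rw [← hcx', inv_smul_smul] at this
          exact this.symm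
        obtain ⟨k, hk | hk⟩ := hnb _ h1
        · refine ⟨g ^ (-k) * h⁻¹, G.mul_mem (G.zpow_mem hg _) (G.inv_mem hh), ?_⟩
          rw [mul_smul, hk, ← mul_smul, ← _root_.zpow_add, neg_add_cancel, zpow_zero, one_smul]
        · exfalso
          have hθ1 : (h * g ^ k) • c = x := by rw [mul_smul, zpow_smul_fix hc, hcx']
          have hθ2 : (h * g ^ k) • x = c := by
            rw [mul_smul, ← hk, smul_inv_smul]
          exact hxne (hN G hG _ (G.mul_mem hh (G.zpow_mem hg k)) c x hθ1 hθ2)
      obtain ⟨e, he, hez⟩ : ∃ e ∈ G, e • c = z := by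
        obtain ⟨k, hk | hk⟩ := hnb _ hzc.symm
        · obtain ⟨e, he, hea⟩ := hac'
          exact ⟨g ^ k * e, G.mul_mem (G.zpow_mem hg k) he, by rw [mul_smul, hea, hk]⟩
        · exact ⟨g ^ k * h, G.mul_mem (G.zpow_mem hg k) hh, by rw [mul_smul, hcx', hk]⟩
      have h1 : T'.E G z (e • z) := by
        have := hzc.symm.smul he
        rwa [hez] at this
      obtain ⟨k, hk⟩ := hzstar _ h1
      have h2 : (h ^ (-k) * e) • z = c := by
        rw [mul_smul, hk, ← mul_smul, ← _root_.zpow_add, neg_add_cancel, zpow_zero, one_smul]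
      have h3 : (h ^ (-k) * e) • c = z := by
        rw [mul_smul, hez, zpow_smul_fix hz]
      exact hzne (hN G hG _ (G.mul_mem (G.zpow_mem hh _) he) z c h2 h3)
    have hlt : Set.ncard {i | Bad G T' Q i} < m := by
      rw [hm]
      apply Set.ncard_lt_ncard _ (Set.toFinite _)
      refine ⟨?_, ?_⟩
      · intro j hj
        by_cases hji : j = i
        · subst hji; exact absurd hj hnbad
        · simpa [Bad, hTdef, Fam.flip, hji] using hj
      · intro hsub
        apply hnbad
        refine hsub ⟨g, hg, c, hc, ?_, ?_⟩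
        · rw [← ha, ht]
        · rw [← ha, ht]; exact hnQ
    obtain ⟨T'', h1, h2, h3, h4⟩ := ih _ hlt T' hT' hQ' rfl
    exact ⟨T'', h1, Relation.ReflTransGen.head hstep h2, h3, h4⟩

end Pool.Agent.Lib.MP_eee7a8_ag.TB
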