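import Pool.Agent.Lib.MP_eee7a8_ag.TB.IfaceA
import Pool.Agent.Lib.MP_eee7a8_ag.TB.A.Coord

/-!
# TAGBR, module MONO1: monogon loops
-/

open Matrix

namespace Pool.Agent.Lib.MP_eee7a8_ag.TB

namespace AMono

theorem zpow_smul_fix {g : SLZ} {c : Cusp} (h : g • c = c) (k : ℤ) : g ^ k • c = c := by
  have h' : g⁻¹ • c = c := by rw [inv_smul_eq_iff, h]
  induction k using Int.induction_on with
  | zero => simp
  | succ k ih => rw [_root_.zpow_add_one, mul_smul, h, ih]
  | pred k ih => rw [_root_.zpow_sub_one, mul_smul, h', ih]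

/-- In the coordinate at `c` the powers of an element fixing `c` are translations. -/
theorem zpow_coord {g : SLZ} {c : Cusp} {t : Cusp → ℚ} {n : ℤ}
    (h : ∀ x, x ≠ c → g • x ≠ c ∧ t (g • x) = t x + n) (k : ℤ) {x : Cusp} (hx : x ≠ c) :
    g ^ k • x ≠ c ∧ t (g ^ k • x) = t x + k * n := by
  have hinv : ∀ x, x ≠ c → g • c = c → g⁻¹ • x ≠ c ∧ t (g⁻¹ • x) = t x - n := by
    intro x hx hc
    have h1 : g⁻¹ • x ≠ c := by
      intro e
      rw [inv_smul_eq_iff, hc] at e
      exact hx e
    refine ⟨h1, ?_⟩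
    have := (h _ h1).2
    rw [smul_inv_smul] at this
    linarith
  by_cases hc : g • c = c
  · induction k using Int.induction_on with
    | zero => simpa using hx
    | succ k ih =>
      rw [_root_.zpow_add_one, mul_smul]
      have h1 := h x hx
      have : ∀ k : ℕ, ∀ x, x ≠ c → g ^ (k : ℤ) • x ≠ c ∧ t (g ^ (k : ℤ) • x) = t x + k * n := by
        intro k
        induction k with
        | zero => intro x hx; simpa using hx
        | succ k ih =>
          intro x hx
          have h2 := ih _ (h x hx).1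
          push_cast
          rw [_root_.zpow_add_one, mul_smul]
          refine ⟨h2.1, ?_⟩
          rw [h2.2, (h x hx).2]; push_cast; ring
      have h2 := this k _ h1.1
      refine ⟨h2.1, ?_⟩
      rw [h2.2, h1.2]; push_cast; ring
    | pred k ih =>
      have : ∀ k : ℕ, ∀ x, x ≠ c → g ^ (-(k : ℤ)) • x ≠ c ∧
          t (g ^ (-(k : ℤ)) • x) = t x - k * n := by
        intro k
        induction k with
        | zero => intro x hx; simpa using hx
        | succ k ih =>
          intro x hx
          have h2 := ih _ (hinv x hx hc).1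
          rw [show -((k + 1 : ℕ) : ℤ) = -(k : ℤ) - 1 by push_cast; ring, _root_.zpow_sub_one, mul_smul]
          refine ⟨h2.1, ?_⟩
          rw [h2.2, (hinv x hx hc).2]; push_cast; ring
      have h2 := this (k + 1) x hx
      rw [show -(k : ℤ) - 1 = -((k + 1 : ℕ) : ℤ) by push_cast; ring]
      refine ⟨h2.1, ?_⟩
      rw [h2.2]; push_cast; ring
  · exfalso
    -- `g⁻¹ c ≠ c` is mapped to `c`
    have h1 : g⁻¹ • c ≠ c := by
      intro e
      rw [inv_smul_eq_iff] at e
      exact hc e.symm
    exact (h _ h1).1 (smul_inv_smul g c)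

end AMono

open AMono in
theorem mono1 : Mono1Statement := by
  intro G hG ι _ T hT g hg a c hc hE
  have hne : a ≠ g • a := hT.toNonCross.ne' hE
  have hac : a ≠ c := by
    rintro rfl
    exact hne hc.symm
  obtain ⟨t, tinj, -, tfix, tcross, -⟩ := coord c
  obtain ⟨n, -, hn⟩ := tfix g hc
  have hn0 : (n : ℚ) ≠ 0 := by
    intro e
    apply hne
    apply tinj _ _ hac (hn a hac).1
    rw [(hn a hac).2, e, add_zero]
  have key : ∀ b, T.E G c b → ∃ k : ℤ, b = g ^ k • a := by
    intro b hb
    have hbc : b ≠ c := (hT.toNonCross.ne' hb).symm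
    set k : ℤ := ⌊(t b - t a) / n⌋ with hk
    have h1 : (k : ℚ) ≤ (t b - t a) / n := Int.floor_le _
    have h2 : (t b - t a) / n < k + 1 := Int.lt_floor_add_one _
    have hx := zpow_coord hn k hac
    have hx' := zpow_coord hn (k + 1) hac
    rcases eq_or_lt_of_le h1 with h3 | h3
    · refine ⟨k, ?_⟩
      apply tinj _ _ hbc hx.1
      rw [hx.2, h3]
      field_simp
      ring
    · exfalso
      have hEk : T.E G (g ^ k • a) (g ^ (k + 1) • a) := by
        have := hE.smul (G.zpow_mem hg k)
        rwa [← mul_smul, ← _root_.zpow_add_one] at this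
      apply hT.nocross _ _ _ _ hb hEk
      rw [tcross b _ _ hbc hx.1 hx'.1, hx.2, hx'.2]
      push_cast
      rcases lt_or_gt_of_ne hn0 with hneg | hpos
      · right
        rw [lt_div_iff_of_neg hneg] at h3
        rw [div_lt_iff_of_neg hneg] at h2
        constructor <;> linarith
      · left
        rw [lt_div_iff₀ hpos] at h3
        rw [div_lt_iff₀ hpos] at h2
        constructor <;> linarith
  refine ⟨?_, key⟩
  rcases hT.star c a hac.symm with h | ⟨u, v, hu, -, -, -⟩
  · exact h
  · obtain ⟨k, rfl⟩ := key u hu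
    have := hu.smul (G.zpow_mem hg (-k))
    rwa [zpow_smul_fix hc, ← mul_smul, ← _root_.zpow_add, neg_add_cancel, zpow_zero, one_smul] at this

end Pool.Agent.Lib.MP_eee7a8_ag.TB
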