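import Pool.Agent.Lib.MP_eee7a8_ag.TB.IfaceA

/-!
# TAGBR, module NONZERO: lambda lengths do not vanish
-/

open Matrix

namespace Pool.Agent.Lib.MP_eee7a8_ag.TB

namespace ANonzero

theorem single_mul_ne_zero {ι : Type} (m : ι → ℤ) {p : LP ι} (hp : p ≠ 0) :
    (AddMonoidAlgebra.single m 1 : LP ι) * p ≠ 0 := by
  intro h
  apply hp
  have : (AddMonoidAlgebra.single (-m) 1 : LP ι) * (AddMonoidAlgebra.single m 1 * p) = 0 := by
    rw [h, mul_zero]
  rw [← mul_assoc, AddMonoidAlgebra.single_mul_single, neg_add_cancel, mul_one] at this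
  rwa [← AddMonoidAlgebra.one_def, one_mul] at this

theorem add_eq_zero_left {ι : Type} {p q : LP ι} (h : p + q = 0) : p = 0 := by
  ext m
  have := congrArg (fun r : LP ι => r.coeff m) h
  simp at this
  simpa using this.1

theorem pol_ne_zero {G : Subgroup SLZ} {ι : Type} {T : Fam ι} (hT : T.IsTri G)
    (hE : ∀ a b, T.E G a b ↔ |dt a b| = 1) {P : Cusp → Cusp → LP ι} (hP : IsPol G T P) :
    ∀ (n : ℕ) (a b : Cusp), a ≠ b → |dt a b| = n → P a b ≠ 0 := by
  intro n
  induction n using Nat.strong_induction_on with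
  | _ n ih =>
  intro a b hab hn
  rcases hT.star a b hab with h | ⟨c, d, h1, h2, h3, hc⟩
  · rw [hP.edge a b h]
    intro h0
    have := congrArg (fun r : LP ι => r.coeff (T.del G a b)) h0
    simp at this
  · intro h0
    have hpt := hP.ptolemy a b c d hc
    rw [h0, zero_mul] at hpt
    have h4 := add_eq_zero_left hpt.symm
    rw [hP.edge a c h1] at h4
    have hI := hc.ptolemy
    rw [(hE _ _).1 h1, (hE _ _).1 h2, (hE _ _).1 h3, one_mul, one_mul, mul_one] at hI
    have hbc : 1 ≤ |dt b c| := one_le_abs_dt hc.ne.2.2.2.1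
    refine single_mul_ne_zero _ ?_ h4
    refine ih (|dt b d|).toNat ?_ b d hc.ne.2.2.2.2.1 ?_
    · have := abs_nonneg (dt b d)
      omega
    · rw [Int.toNat_of_nonneg (abs_nonneg _)]

end ANonzero

open ANonzero in
theorem nonzero (hPol : PolStatement) (hFar : FareyStatement) (hCh : ChartStatement)
    (hEv : EvnStatement) : NonzeroStatement := by
  intro G K _ _ L hG a b hab
  obtain ⟨n, T, hT, hE⟩ := hFar G hG
  obtain ⟨P, hP, hev⟩ := hPol G K L hG (Fin n) T hT
  obtain ⟨hinj, -, -, -, h0, -⟩ := hEv G K L (Fin n) T (hCh G K L hG (Fin n) T hT)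
  rw [← hev a b, ← h0]
  intro h
  refine pol_ne_zero hT hE hP (|dt a b|).toNat a b hab ?_ (hinj h)
  rw [Int.toNat_of_nonneg (abs_nonneg _)]

end Pool.Agent.Lib.MP_eee7a8_ag.TB
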